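import Pool.Agent.helper12.DD.Spec

/-! # dd:OPP. `O_p` of a product -/

set_option autoImplicit false

open Pool.Agent.helper49.Blk

namespace Pool.Agent.DD

theorem OPP_isP {A B : Type} [Group A] [Group B] (p : ℕ) (P₁ : Subgroup A) (P₂ : Subgroup B)
    (h₁ : IsPGroup p P₁) (h₂ : IsPGroup p P₂) : IsPGroup p (P₁.prod P₂ : Subgroup (A × B)) := by
  rintro ⟨⟨a, b⟩, ha, hb⟩
  obtain ⟨m, hm⟩ := h₁ ⟨a, ha⟩
  obtain ⟨n, hn⟩ := h₂ ⟨b, hb⟩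
  have hm' : a ^ p ^ m = 1 := by
    have := congrArg Subtype.val hm
    simpa using this
  have hn' : b ^ p ^ n = 1 := by
    have := congrArg Subtype.val hn
    simpa using this
  refine ⟨m + n, ?_⟩
  apply Subtype.ext
  apply Prod.ext
  · simp only [Subgroup.coe_pow, Prod.pow_fst, Subgroup.coe_one, Prod.fst_one]
    rw [pow_add, pow_mul, hm', one_pow]
  · simp only [Subgroup.coe_pow, Prod.pow_snd, Subgroup.coe_one, Prod.snd_one]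
    rw [pow_add, mul_comm, pow_mul, hn', one_pow]

theorem OPP_prod (hNPR : NPR_stmt) {A B : Type} [Group A] [Group B] (p : ℕ)
    (H₁ P₁ : Subgroup A) (H₂ P₂ : Subgroup B) (h₁ : IsOp p H₁ P₁) (h₂ : IsOp p H₂ P₂) :
    IsOp p (H₁.prod H₂) (P₁.prod P₂) := by
  refine ⟨⟨Subgroup.prod_mono h₁.1.1 h₂.1.1, OPP_isP p P₁ P₂ h₁.1.2.1 h₂.1.2.1, ?_⟩, ?_⟩
  · rw [(hNPR A B P₁ P₂).1]
    exact Subgroup.prod_mono h₁.1.2.2 h₂.1.2.2
  · rintro Q ⟨hQ1, hQ2, hQ3⟩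
    have e1 : p1 Q ≤ P₁ := by
      refine h₁.2 ⟨?_, ?_, ?_⟩
      · rintro _ ⟨x, hx, rfl⟩
        exact (hQ1 hx).1
      · exact hQ2.map _
      · intro h hh
        have h3 : (h, (1 : B)) ∈ Subgroup.normalizer (Q : Set (A × B)) :=
          hQ3 ⟨hh, H₂.one_mem⟩
        exact Subgroup.le_normalizer_map (MonoidHom.fst A B) ⟨(h, 1), h3, rfl⟩
    have e2 : p2 Q ≤ P₂ := by
      refine h₂.2 ⟨?_, ?_, ?_⟩
      · rintro _ ⟨x, hx, rfl⟩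
        exact (hQ1 hx).2
      · exact hQ2.map _
      · intro h hh
        have h3 : ((1 : A), h) ∈ Subgroup.normalizer (Q : Set (A × B)) :=
          hQ3 ⟨H₁.one_mem, hh⟩
        exact Subgroup.le_normalizer_map (MonoidHom.snd A B) ⟨(1, h), h3, rfl⟩
    intro x hx
    exact ⟨e1 ⟨x, hx, rfl⟩, e2 ⟨x, hx, rfl⟩⟩

theorem OPP (hOPE : OPE_stmt) (hNPR : NPR_stmt) : OPP_stmt := by
  intro A B _ _ _ _ p hp H₁ H₂ R
  constructor
  · intro hR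
    obtain ⟨P₁, h₁⟩ := hOPE A p hp H₁
    obtain ⟨P₂, h₂⟩ := hOPE B p hp H₂
    exact ⟨P₁, P₂, hR.unique (OPP_prod hNPR p H₁ P₁ H₂ P₂ h₁ h₂), h₁, h₂⟩
  · rintro ⟨P₁, P₂, rfl, h₁, h₂⟩
    exact OPP_prod hNPR p H₁ P₁ H₂ P₂ h₁ h₂

end Pool.Agent.DD
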