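import Pool.Agent.helper12.DD.Spec

/-! # dd:PID. The product identity -/

set_option autoImplicit false

open Pool.Agent.helper49.Blk

namespace Pool.Agent.DD

/-- `Q :: l`, or `l` if `Q = P` -/
noncomputable def PID_e {α : Type} (P Q : α) (l : List α) : List α :=
  open Classical in if Q = P then l else Q :: l

theorem PID_dd {α : Type} (P Q : α) (l : List α) : dd P (Q :: l) = PID_e P Q (dd Q l) := by
  by_cases h : Q = P
  · subst h
    simp [dd, PID_e]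
  · simp [dd, PID_e, h]

theorem PID_rec (hREC : REC_stmt) {G : Type} [Group G] [Finite G] (p : ℕ) (H P : Subgroup G)
    (φ : List (Subgroup G) → ℚ) (T : Finset (Subgroup G))
    (hT : ∀ Q, Q ∈ T ↔ P < Q ∧ IsOp p (H ⊓ Subgroup.normalizer Q) Q) :
    W p H P φ = φ [] -
      ∑ Q ∈ T, W p (H ⊓ Subgroup.normalizer Q) Q (fun C => φ (Q :: C)) := by
  rw [hREC]
  congr 1
  have h : {Q : Subgroup G | P < Q ∧ IsOp p (H ⊓ Subgroup.normalizer Q) Q} = (T : Set (Subgroup G)) := by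
    ext Q
    exact (hT Q).symm
  rw [h, finsum_mem_coe_finset]

theorem PID_op {G : Type} [Group G] (p : ℕ) (H P : Subgroup G) (h : IsOp p H P) :
    H ⊓ Subgroup.normalizer (P : Set G) = H := by
  exact inf_eq_left.mpr h.1.2.2

/-- the sum over `T₁ = {Q | P ≤ Q, Q = O_p(H ∩ N(Q))}` -/
theorem PID_sum (hREC : REC_stmt) {G : Type} [Group G] [Finite G] (p : ℕ) (H P : Subgroup G)
    (hP : IsOp p H P) (φ : List (Subgroup G) → ℚ) (T : Finset (Subgroup G))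
    (hT : ∀ Q, Q ∈ T ↔ P ≤ Q ∧ IsOp p (H ⊓ Subgroup.normalizer Q) Q) :
    ∑ Q ∈ T, W p (H ⊓ Subgroup.normalizer Q) Q (fun C => φ (PID_e P Q C)) = φ [] := by
  classical
  have hPT : P ∈ T := (hT P).mpr ⟨le_rfl, by rw [PID_op p H P hP]; exact hP⟩
  rw [← Finset.add_sum_erase _ _ hPT]
  have h1 : W p (H ⊓ Subgroup.normalizer P) P (fun C => φ (PID_e P P C)) = W p H P φ := by
    rw [PID_op p H P hP]
    congr 1
    funext C
    simp [PID_e]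
  have h2 := PID_rec hREC p H P φ (T.erase P) (by
    intro Q
    rw [Finset.mem_erase, hT, lt_iff_le_and_ne]
    constructor
    · rintro ⟨h1, h2, h3⟩
      exact ⟨⟨h2, Ne.symm h1⟩, h3⟩
    · rintro ⟨⟨h1, h2⟩, h3⟩
      exact ⟨Ne.symm h2, h1, h3⟩)
  have h3 : ∑ Q ∈ T.erase P, W p (H ⊓ Subgroup.normalizer Q) Q (fun C => φ (PID_e P Q C)) =
      ∑ Q ∈ T.erase P, W p (H ⊓ Subgroup.normalizer Q) Q (fun C => φ (Q :: C)) := by
    refine Finset.sum_congr rfl fun Q hQ => ?_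
    congr 1
    funext C
    simp [PID_e, (Finset.mem_erase.mp hQ).1]
  rw [h1, h3, h2]
  ring

theorem PID (hREC : REC_stmt) (hOPX : OPX_stmt) (hNPR : NPR_stmt) : PID_stmt := by
  classical
  intro A B _ _ _ _ p hp
  have key : ∀ x : Subgroup A × Subgroup B, ∀ (H₁ : Subgroup A) (H₂ : Subgroup B),
      IsOp p H₁ x.1 → IsOp p H₂ x.2 →
      ∀ (φ₁ : List (Subgroup A) → ℚ) (φ₂ : List (Subgroup B) → ℚ),
      W p (H₁.prod H₂) (x.1.prod x.2)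
        (fun C => φ₁ (dd x.1 (C.map p1)) * φ₂ (dd x.2 (C.map p2))) =
      W p H₁ x.1 φ₁ * W p H₂ x.2 φ₂ := by
    intro x
    induction x using WellFoundedGT.induction with
    | ind x ih =>
    obtain ⟨P₁, P₂⟩ := x
    intro H₁ H₂ h₁ h₂ φ₁ φ₂
    simp only at h₁ h₂ ⊢
    have : Fintype (Subgroup A) := Fintype.ofFinite _
    have : Fintype (Subgroup B) := Fintype.ofFinite _
    have : Fintype (Subgroup (A × B)) := Fintype.ofFinite _
    set T₁ : Finset (Subgroup A) :=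
      Finset.univ.filter fun Q => P₁ ≤ Q ∧ IsOp p (H₁ ⊓ Subgroup.normalizer Q) Q with hT₁
    set T₂ : Finset (Subgroup B) :=
      Finset.univ.filter fun Q => P₂ ≤ Q ∧ IsOp p (H₂ ⊓ Subgroup.normalizer Q) Q with hT₂
    have hT₁' : ∀ Q, Q ∈ T₁ ↔ P₁ ≤ Q ∧ IsOp p (H₁ ⊓ Subgroup.normalizer Q) Q := by
      intro Q
      simp [hT₁]
    have hT₂' : ∀ Q, Q ∈ T₂ ↔ P₂ ≤ Q ∧ IsOp p (H₂ ⊓ Subgroup.normalizer Q) Q := by
      intro Q
      simp [hT₂]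
    have hs₁ := PID_sum hREC p H₁ P₁ h₁ φ₁ T₁ hT₁'
    have hs₂ := PID_sum hREC p H₂ P₂ h₂ φ₂ T₂ hT₂'
    have hP₁ : P₁ ∈ T₁ := (hT₁' P₁).mpr ⟨le_rfl, by rw [PID_op p H₁ P₁ h₁]; exact h₁⟩
    have hP₂ : P₂ ∈ T₂ := (hT₂' P₂).mpr ⟨le_rfl, by rw [PID_op p H₂ P₂ h₂]; exact h₂⟩
    set S : Finset (Subgroup (A × B)) := Finset.univ.filter fun Q =>
      P₁.prod P₂ < Q ∧ IsOp p (H₁.prod H₂ ⊓ Subgroup.normalizer Q) Q with hS
    have hS' : ∀ Q, Q ∈ S ↔ P₁.prod P₂ < Q ∧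
        IsOp p (H₁.prod H₂ ⊓ Subgroup.normalizer Q) Q := by
      intro Q
      simp [hS]
    rw [PID_rec hREC p (H₁.prod H₂) (P₁.prod P₂) _ S hS']
    have hmem : ∀ Q, Q ∈ S ↔ ∃ z : Subgroup A × Subgroup B,
        z ∈ (T₁ ×ˢ T₂).erase (P₁, P₂) ∧ Q = z.1.prod z.2 := by
      intro Q
      rw [hS', hOPX A B p hp H₁ P₁ H₂ P₂ h₁ h₂ Q]
      constructor
      · rintro ⟨Q₁, Q₂, hQ, hl₁, hl₂, hne, ho₁, ho₂⟩
        refine ⟨(Q₁, Q₂), ?_, hQ⟩
        rw [Finset.mem_erase, Finset.mem_product]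
        refine ⟨?_, (hT₁' _).mpr ⟨hl₁, ho₁⟩, (hT₂' _).mpr ⟨hl₂, ho₂⟩⟩
        intro hh
        rw [Prod.mk.injEq] at hh
        rcases hne with h | h
        · exact h hh.1.symm
        · exact h hh.2.symm
      · rintro ⟨⟨Q₁, Q₂⟩, hz, hQ⟩
        rw [Finset.mem_erase, Finset.mem_product] at hz
        obtain ⟨hne, hz1, hz2⟩ := hz
        obtain ⟨hl₁, ho₁⟩ := (hT₁' _).mp hz1
        obtain ⟨hl₂, ho₂⟩ := (hT₂' _).mp hz2
        refine ⟨Q₁, Q₂, hQ, hl₁, hl₂, ?_, ho₁, ho₂⟩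
        by_contra hh
        push Not at hh
        exact hne (by rw [hh.1, hh.2])
    have hsum : ∑ Q ∈ S, W p (H₁.prod H₂ ⊓ Subgroup.normalizer Q) Q
        (fun C => φ₁ (dd P₁ ((Q :: C).map p1)) * φ₂ (dd P₂ ((Q :: C).map p2))) =
        ∑ z ∈ (T₁ ×ˢ T₂).erase (P₁, P₂),
          W p (H₁ ⊓ Subgroup.normalizer z.1) z.1 (fun C => φ₁ (PID_e P₁ z.1 C)) *
          W p (H₂ ⊓ Subgroup.normalizer z.2) z.2 (fun C => φ₂ (PID_e P₂ z.2 C)) := by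
      symm
      refine Finset.sum_bij (fun z _ => z.1.prod z.2) ?_ ?_ ?_ ?_
      · intro z hz
        exact (hmem _).mpr ⟨z, hz, rfl⟩
      · intro z _ z' _ h
        have e1 := congrArg p1 h
        have e2 := congrArg p2 h
        simp only [(hNPR A B _ _).2.1, (hNPR A B _ _).2.2.1] at e1 e2
        exact Prod.ext e1 e2
      · intro Q hQ
        obtain ⟨z, hz, hzQ⟩ := (hmem Q).mp hQ
        exact ⟨z, hz, hzQ.symm⟩
      · rintro ⟨Q₁, Q₂⟩ hz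
        rw [Finset.mem_erase, Finset.mem_product] at hz
        obtain ⟨hne, hz1, hz2⟩ := hz
        obtain ⟨hl₁, ho₁⟩ := (hT₁' _).mp hz1
        obtain ⟨hl₂, ho₂⟩ := (hT₂' _).mp hz2
        have hlt : (P₁, P₂) < (Q₁, Q₂) := by
          rw [lt_iff_le_and_ne]
          exact ⟨⟨hl₁, hl₂⟩, Ne.symm hne⟩
        have hih := ih (Q₁, Q₂) hlt (H₁ ⊓ Subgroup.normalizer (Q₁ : Set A))
          (H₂ ⊓ Subgroup.normalizer (Q₂ : Set B)) ho₁ ho₂
          (fun C => φ₁ (PID_e P₁ Q₁ C)) (fun C => φ₂ (PID_e P₂ Q₂ C))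
        simp only at hih ⊢
        rw [← hih]
        obtain ⟨n1, n2, n3, n4⟩ := hNPR A B Q₁ Q₂
        rw [n1, n4]
        congr 1
        funext C
        rw [List.map_cons, List.map_cons, n2, n3, PID_dd, PID_dd]
    have hprod : ∑ z ∈ T₁ ×ˢ T₂,
          W p (H₁ ⊓ Subgroup.normalizer z.1) z.1 (fun C => φ₁ (PID_e P₁ z.1 C)) *
          W p (H₂ ⊓ Subgroup.normalizer z.2) z.2 (fun C => φ₂ (PID_e P₂ z.2 C)) =
        φ₁ [] * φ₂ [] := by
      rw [Finset.sum_product, ← hs₁, ← hs₂, Finset.sum_mul_sum]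
    have hmemP : (P₁, P₂) ∈ T₁ ×ˢ T₂ := Finset.mem_product.mpr ⟨hP₁, hP₂⟩
    rw [← Finset.add_sum_erase _ _ hmemP] at hprod
    have hg₁ : W p (H₁ ⊓ Subgroup.normalizer P₁) P₁ (fun C => φ₁ (PID_e P₁ P₁ C)) =
        W p H₁ P₁ φ₁ := by
      rw [PID_op p H₁ P₁ h₁]
      congr 1
      funext C
      simp [PID_e]
    have hg₂ : W p (H₂ ⊓ Subgroup.normalizer P₂) P₂ (fun C => φ₂ (PID_e P₂ P₂ C)) =
        W p H₂ P₂ φ₂ := by
      rw [PID_op p H₂ P₂ h₂]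
      congr 1
      funext C
      simp [PID_e]
    simp only [hg₁, hg₂] at hprod
    rw [hsum]
    simp only [List.map_nil, dd]
    linarith
  intro H₁ P₁ H₂ P₂ h₁ h₂ φ₁ φ₂
  exact key (P₁, P₂) H₁ H₂ h₁ h₂ φ₁ φ₂

end Pool.Agent.DD
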